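import Pool.Agent.Lib_helper2.K4.DefsH

set_option autoImplicit false

/-!
# The traces of the classes `ξ(a,b)`: definitions
-/

namespace Pool.Agent.MK4

section Abs

variable {A B : Type*} [AddCommGroup A] [AddCommGroup B]

/-- `G` is a set of homomorphisms from `C` to `A`. The sum over `s ∈ G` of all `ξ(a',b')` such that
`(a',b')` satisfies the same linear relations with the `s(c)` as `(a,b)` with the `c ∈ C`:
`xa' + yb' = s(c)` if and only if `xa + yb = c`. -/
noncomputable def tr (ξ : A → A → B) {C : AddSubgroup A} (G : Set (C →+ A)) (a b : A) : B :=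
  ∑ᶠ s ∈ G, ∑ᶠ v ∈ {v : A × A | ∀ (x y : ℤ) (c : C),
    x • v.1 + y • v.2 = s c ↔ x • a + y • b = c}, ξ v.1 v.2

/-- The homomorphisms `c ↦ uc` from the group generated by `P` to `A`, for the classes `u` in `U`. -/
def mulBy {N : ℕ} (U : Subgroup (ZMod N)ˣ) (P : A) : Set (AddSubgroup.zmultiples P →+ A) :=
  {s | ∃ u ∈ U, s = (u : ZMod N).val • (AddSubgroup.zmultiples P).subtype}

/-- For every finite subgroup `C`, every finite set `G` of injective homomorphisms from `C` to `A`
and all `a`, `b`, the trace of `(a,b)` is in the span of the `∑_{s ∈ G} ξ(s(c),s(d))`,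
`c, d ∈ C`. -/
def AllPairs [Module ℚ B] (ξ : A → A → B) : Prop :=
  ∀ (C : AddSubgroup A) (G : Set (C →+ A)), Finite C → G.Finite →
    (∀ s ∈ G, Function.Injective s) → ∀ a b : A,
      tr ξ G a b ∈ Submodule.span ℚ {z : B | ∃ c d : C, z = ∑ᶠ s ∈ G, ξ (s c) (s d)}

/-- `C` is generated by a point killed by `N` and `G` consists of the automorphisms of `C`: all
traces, of all pairs, are multiples of one class. -/
def OnePairs [Module ℚ B] (ξ : A → A → B) (N : ℕ) : Prop :=
  ∀ P : A, N • P = 0 → ∃ h : B, ∀ a b : A, ∃ q : ℚ,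
    tr ξ (mulBy (⊤ : Subgroup (ZMod N)ˣ) P) a b = q • h

/-- `C` is generated by a point of prime order `p ≥ 5` and `G` is a group `U` of automorphisms of
`C` which contains `-1`: all traces, of all pairs, are in a space of dimension at most
`1 + (p-1)(p-11-3e₄-4e₃)/(12|U|)`, the genus of the modular curve `X_U(p)` (`e₄`, `e₃`: numbers of
elements of order four, three in `U`). -/
def GenusPairs [Module ℚ B] (ξ : A → A → B) : Prop :=
  ∀ p : ℕ, p.Prime → 5 ≤ p → ∀ U : Subgroup (ZMod p)ˣ, -1 ∈ U → ∀ P : A, addOrderOf P = p →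
    ∃ S : Submodule ℚ B, Module.Finite ℚ S ∧
      (Module.finrank ℚ S : ℚ) ≤
        1 + ((p : ℚ) - 1) * (p - 11 - 3 * Nat.card {u : U // orderOf u = 4}
          - 4 * Nat.card {u : U // orderOf u = 3}) / (12 * Nat.card U) ∧
      ∀ a b : A, tr ξ (mulBy U P) a b ∈ S

end Abs

end Pool.Agent.MK4
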