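import Pool.Agent.Lib_helper88.K4P.Pairs
import Pool.Agent.Lib_helper88.K4P.Defs
import Pool.Agent.Lib_helper66.K4M.RankD
import Pool.Agent.Lib_helper66.K4M.Genus1b

set_option autoImplicit false

/-!
All pairs: the theorems.
-/

namespace Pool.Agent.MK4

open Finset Pool.Agent.K4AP

open Classical in
/-- the sets of torsion elements -/
noncomputable def TT (A : Type*) [AddCommGroup A] (k : ℕ) : Finset A :=
  if h : {i : A | k • i = 0}.Finite then h.toFinset else ∅

variable {A B D : Type*} [AddCommGroup A] [AddCommGroup B] [AddCommGroup D] {ξ : A → A → B}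

lemma isTors_TT (hfin : ∀ k, 0 < k → {i : A | k • i = 0}.Finite)
    (hdiv : ∀ k, 0 < k → ∀ a : A, ∃ b, k • b = a) : K4TL.IsTors (TT A) where
  mem k hk i := by
    unfold TT
    rw [dif_pos (hfin k hk), Set.Finite.mem_toFinset]
    exact Iff.rfl
  div := hdiv

lemma dist_TT [Module ℚ B] (hfin : ∀ k, 0 < k → {i : A | k • i = 0}.Finite)
    (hM : Manin ξ) (h2 : ∀ k, 0 < k → Dist2At k ξ) : K4TL.Dist (TT A) ξ where
  sym := hM.sym
  par := hM.par
  tri a b := hM.tri a b (-a - b) (by abel)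
  d2 k hk a b := by
    rw [← h2 k hk a b, Nat.cast_smul_eq_nsmul]
    congr 1
    have h1 : ∑ᶠ i : {i : A // k • i = 0}, ξ a (b + i) = ∑ᶠ i ∈ {i : A | k • i = 0}, ξ a (b + i) :=
      finsum_set_coe_eq_finsum_mem (s := {i : A | k • i = 0}) (f := fun i => ξ a (b + i))
    rw [h1, ← (hfin k hk).coe_toFinset, finsum_mem_coe_finset]
    unfold TT
    rw [dif_pos (hfin k hk)]

lemma ty_index (f : D →+ A) (v : A × A) {n : ℕ} (h1 : n • v.1 = 0) (h2 : n • v.2 = 0)
    (h3 : ∀ d, n • f d = 0) (hfin : {i : A | n • i = 0}.Finite) : (ty f v).index ≠ 0 := by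
  let φ : ℤ × ℤ × D →+ A :=
    { toFun := fun t => t.1 • v.1 + t.2.1 • v.2 - f t.2.2
      map_zero' := by simp
      map_add' := by
        intro s t
        simp only [Prod.fst_add, Prod.snd_add, map_add, add_smul]
        abel }
  have e : ty f v = φ.ker := by
    ext t
    rw [AddMonoidHom.mem_ker]
    exact sub_eq_zero.symm
  have hr : Finite φ.range := by
    refine Set.Finite.subset hfin ?_
    rintro _ ⟨t, rfl⟩
    show n • (t.1 • v.1 + t.2.1 • v.2 - f t.2.2) = 0
    rw [smul_sub, smul_add, h3, smul_comm n, smul_comm n, h1, h2]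
    simp
  rw [e, AddSubgroup.index_ker]
  exact Nat.card_pos.ne'

variable [Module ℚ B]

theorem allPairs_of (htor : ∀ a : A, ∃ n, 0 < n ∧ n • a = 0)
    (hfin : ∀ k, 0 < k → {i : A | k • i = 0}.Finite)
    (hdiv : ∀ k, 0 < k → ∀ a : A, ∃ b, k • b = a)
    (hM : Manin ξ) (h2 : ∀ k, 0 < k → Dist2At k ξ) : AllPairs ξ := by
  classical
  intro C G hC hG hinj a b
  obtain ⟨n1, hn1, ha⟩ := htor a
  obtain ⟨n2, hn2, hb⟩ := htor b
  have hn3 : 0 < Nat.card C := Nat.card_pos
  have hn : 0 < n1 * n2 * Nat.card C := by positivity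
  have hidx : (ty C.subtype (a, b)).index ≠ 0 := by
    refine ty_index (n := n1 * n2 * Nat.card C) C.subtype (a, b) ?_ ?_ ?_ (hfin _ hn)
    · rw [mul_assoc, mul_comm, mul_smul, ha, smul_zero]
    · rw [mul_comm n1, mul_assoc, mul_comm, mul_smul, hb, smul_zero]
    · intro c
      have h : Nat.card C • c = 0 := card_nsmul_eq_zero'
      rw [mul_smul, ← map_nsmul C.subtype, h, map_zero, smul_zero]
  have hfG : Finite G := hG
  have : Fintype G := Fintype.ofFinite G
  have key := eq_mem (isTors_TT hfin hdiv) (dist_TT hfin hM h2)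
    (f := fun s : G => (s : C →+ A)) (K := (⊥ : AddSubgroup C))
    (fun s d => by
      rw [AddSubgroup.mem_bot]
      exact map_eq_zero_iff _ (hinj s s.2)) _ hidx (ty C.subtype (a, b)) rfl
  -- the sum over `G`
  let L : (G → B) →ₗ[ℚ] B := ∑ s : G, LinearMap.proj s
  have hL : ∀ z : G → B, L z = ∑ s : G, z s := by
    intro z
    simp [L]
  have h3 : L (Eq' ξ (fun s : G => (s : C →+ A)) (ty C.subtype (a, b))) = tr ξ G a b := by
    have e1 : L (Eq' ξ (fun s : G => (s : C →+ A)) (ty C.subtype (a, b))) = ∑ᶠ s : G,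
        (fun s : C →+ A => ∑ᶠ v ∈ {v : A × A | ty s v = ty C.subtype (a, b)}, ξ v.1 v.2) s := by
      rw [hL, finsum_eq_sum_of_fintype]
      rfl
    rw [e1]
    unfold tr
    rw [finsum_set_coe_eq_finsum_mem (s := G)
      (f := fun s => ∑ᶠ v ∈ {v : A × A | ty s v = ty C.subtype (a, b)}, ξ v.1 v.2)]
    refine finsum_congr fun s => finsum_congr fun _ => ?_
    congr 1
    funext v
    have : ty s v = ty C.subtype (a, b) ↔ ∀ (x y : ℤ) (c : C),
        x • v.1 + y • v.2 = s c ↔ x • a + y • b = c := by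
      constructor
      · intro h x y c
        rw [← mem_ty (f := s), h]
        exact Iff.rfl
      · intro h
        ext ⟨x, y, c⟩
        exact h x y c
    simp only [Set.mem_ofPred_eq, this]
  rw [← h3]
  have h4 : L (Eq' ξ (fun s : G => (s : C →+ A)) (ty C.subtype (a, b))) ∈
      Submodule.map L (RR ξ (fun s : G => (s : C →+ A))) := Submodule.mem_map_of_mem key
  unfold RR at h4
  rw [Submodule.map_span] at h4
  refine Submodule.span_mono ?_ h4
  rintro _ ⟨z, ⟨c, d, rfl⟩, rfl⟩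
  refine ⟨c, d, ?_⟩
  rw [hL, ← finsum_eq_sum_of_fintype,
    finsum_set_coe_eq_finsum_mem (s := G) (f := fun s => ξ (s c) (s d))]

end Pool.Agent.MK4
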