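import Pool.Agent.Lib_helper7.K4Z.All

set_option autoImplicit false

/-!
The torsion points of an elliptic curve.
-/

namespace Pool.Agent.MK4

open Pool.Agent.K4D2

variable {F : Type*} [Field F] [CharZero F] [IsAlgClosed F] [DecidableEq F]
  {W : WeierstrassCurve.Affine F}

theorem tor_To (a : To W) : ∃ n, 0 < n ∧ n • a = 0 := by
  obtain ⟨n, hn, h⟩ := K4M.TP_tor a
  exact ⟨n, hn, h⟩

theorem fin_To : ∀ n, 0 < n → {a : To W | n • a = 0}.Finite := by
  intro n hn
  obtain ⟨m, rfl⟩ : ∃ m, n = m + 1 := ⟨n - 1, by omega⟩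
  have h : Finite (tor (K4M.TP W) (m + 1)) := inferInstance
  exact h

theorem div_To' (hW : W.Δ ≠ 0) : ∀ n, 0 < n → ∀ a : To W, ∃ b, n • b = a := by
  intro n hn a
  obtain ⟨m, rfl⟩ : ∃ m, n = m + 1 := ⟨n - 1, by omega⟩
  exact (td_closed (W := W) hW).div m a

end Pool.Agent.MK4
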