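import Pool.Agent.Lib_helper7.K4.TL

set_option autoImplicit false

/-!
The sums of `ξ(a,b)` over the `a, b` with `ma = y₁`, `wa + kb = y₂`.
-/

namespace Pool.Agent.K4AP

open Finset Pool.Agent.K4TL

variable {A B : Type*} [AddCommGroup A] [AddCommGroup B] [Module ℚ B] {T : ℕ → Finset A}
  {e : A → A → B}

/-- the sum over one coset, without the condition that `m`, `v` are coprime -/
lemma coset_gen (hT : IsTors T) (h : Dist T e) {m : ℕ} (hm : 0 < m) (v : ℕ) (x y : A) :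
    ∑ i ∈ T m, e (x + i) (y + v • i) =
      (((Nat.gcd m v : ℕ) : ℚ)⁻¹ * ((m / Nat.gcd m v : ℕ) : ℚ)⁻¹) •
        ∑ M ∈ X (m / Nat.gcd m v) (v / Nat.gcd m v), ev e (Nat.gcd m v • x) y M := by
  classical
  obtain ⟨g, hg⟩ : ∃ g, g = Nat.gcd m v := ⟨_, rfl⟩
  have hg0 : 0 < g := by rw [hg]; exact Nat.gcd_pos_of_pos_left _ hm
  obtain ⟨m', hm'⟩ : ∃ m', m' = m / g := ⟨_, rfl⟩
  obtain ⟨v', hv'⟩ : ∃ v', v' = v / g := ⟨_, rfl⟩
  have em : m = g * m' := by rw [hm', hg, Nat.mul_div_cancel' (Nat.gcd_dvd_left _ _)]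
  have ev' : v = g * v' := by rw [hv', hg, Nat.mul_div_cancel' (Nat.gcd_dvd_right _ _)]
  have hm0 : 0 < m' := by
    rcases Nat.eq_zero_or_pos m' with h0 | h0
    · rw [h0, mul_zero] at em; omega
    · exact h0
  have hco : Nat.Coprime m' v' := by
    rw [hm', hv', hg]
    exact Nat.coprime_div_gcd_div_gcd (Nat.gcd_pos_of_pos_left _ hm)
  rw [← hg, ← hm', ← hv']
  have hc := coset hT h m' hm0 v' hco (g • x) y
  have hm'q : (m' : ℚ) ≠ 0 := Nat.cast_ne_zero.mpr hm0.ne'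
  have hgq : (g : ℚ) ≠ 0 := Nat.cast_ne_zero.mpr hg0.ne'
  rw [← hc, smul_smul, mul_assoc, inv_mul_cancel₀ hm'q, mul_one, smul_sum]
  rw [← Finset.sum_fiberwise_of_maps_to (s := T m) (t := T m') (g := fun j => g • j)
    (f := fun i => e (x + i) (y + v • i)) ?_]
  · refine Finset.sum_congr rfl fun j' hj' => ?_
    rw [hT.mem m' hm0] at hj'
    obtain ⟨j0, hj0⟩ := hT.div g hg0 j'
    have h1 : ∑ i ∈ (T m).filter (fun i => g • i = j'), e (x + i) (y + v • i) =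
        ∑ t ∈ T g, e (x + j0 + t) (y + v' • j') := by
      refine Finset.sum_nbij' (fun i => i - j0) (fun t => j0 + t) ?_ ?_ ?_ ?_ ?_
      · intro i hi
        rw [mem_filter] at hi
        rw [hT.mem g hg0, smul_sub, hi.2, hj0, sub_self]
      · intro t ht
        rw [hT.mem g hg0] at ht
        have h2 : g • (j0 + t) = j' := by rw [smul_add, hj0, ht, add_zero]
        rw [mem_filter, hT.mem m hm]
        refine ⟨?_, h2⟩
        rw [em, mul_comm, mul_smul, h2, hj']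
      · intro i _; simp
      · intro t _; simp
      · intro i hi
        rw [mem_filter] at hi
        rw [ev', mul_comm g v', mul_smul, hi.2]
        congr 1
        abel
    rw [h1]
    have h3 := h.d2' hg0 (x + j0) (y + v' • j')
    rw [smul_add, hj0] at h3
    rw [← h3, smul_smul, inv_mul_cancel₀ hgq, one_smul]
  · intro j hj
    rw [hT.mem m hm] at hj
    rw [hT.mem m' hm0, smul_smul, mul_comm m' g, ← em, hj]

/-- the pairs with `m a = y₁`, `w a + k b = y₂` -/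
def SS (m k : ℕ) (w : ℤ) (y₁ y₂ : A) : Set (A × A) :=
  {v | m • v.1 = y₁ ∧ w • v.1 + k • v.2 = y₂}

open Classical in
/-- the sum over `SS` as a double sum -/
lemma sum_SS (hT : IsTors T) {m k : ℕ} (hm : 0 < m) (hk : 0 < k) (w : ℤ) {y₁ y₂ a₀ : A}
    (ha : m • a₀ = y₁) {b : A → A} (hb : ∀ a, k • b a = y₂ - w • a) (f : A → A → B) :
    ((SS m k w y₁ y₂).Finite) ∧ ∑ᶠ v ∈ SS m k w y₁ y₂, f v.1 v.2 =
      ∑ j ∈ T m, ∑ t ∈ T k, f (a₀ + j) (b (a₀ + j) + t) := by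
  have hset : SS m k w y₁ y₂ = (((T m ×ˢ T k).image
      (fun u : A × A => (a₀ + u.1, b (a₀ + u.1) + u.2)) : Finset (A × A)) : Set (A × A)) := by
    ext v
    simp only [SS, Set.mem_ofPred_eq, coe_image, Set.mem_image, mem_coe, mem_product]
    constructor
    · rintro ⟨h1, h2⟩
      refine ⟨(v.1 - a₀, v.2 - b v.1), ⟨?_, ?_⟩, ?_⟩
      · rw [hT.mem m hm, smul_sub, h1, ha, sub_self]
      · rw [hT.mem k hk, smul_sub, hb, ← h2]
        abel
      · simp
    · rintro ⟨u, ⟨h1, h2⟩, rfl⟩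
      rw [hT.mem m hm] at h1
      rw [hT.mem k hk] at h2
      constructor
      · simp only
        rw [smul_add, ha, h1, add_zero]
      · simp only
        rw [smul_add k, hb, h2]
        abel
  refine ⟨by rw [hset]; exact Finset.finite_toSet _, ?_⟩
  rw [hset, finsum_mem_coe_finset, Finset.sum_image, Finset.sum_product]
  intro u _ u' _ huu
  simp only [Prod.mk.injEq] at huu
  have h1 : u.1 = u'.1 := add_left_cancel huu.1
  have h2 : u.2 = u'.2 := by
    have := huu.2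
    rw [h1] at this
    exact add_left_cancel this
  exact Prod.ext h1 h2

/-- The sum of `ξ(a,b)` over the pairs with `m a = y₁`, `w a + k b = y₂`. -/
theorem sum_xi (hT : IsTors T) (h : Dist T e) {m k : ℕ} (hm : 0 < m) (hk : 0 < k) (w : ℤ) :
    ∃ (I : Finset (ℕ × ℕ × ℕ × ℕ)) (κ : ℚ) (α β : ℕ × ℕ × ℕ × ℕ → ℤ), ∀ y₁ y₂ : A,
      ∑ᶠ v ∈ SS m k w y₁ y₂, e v.1 v.2 = κ • ∑ M ∈ I,
        e (α M • y₁ + M.2.1 • y₂) (β M • y₁ + M.2.2.2 • y₂) := by
  classical
  obtain ⟨v, hv⟩ : ∃ v : ℕ, (m : ℤ) ∣ v + w := by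
    refine ⟨((-w) % m).toNat, ?_⟩
    have hm' : (m : ℤ) ≠ 0 := Int.natCast_ne_zero.mpr hm.ne'
    rw [Int.toNat_of_nonneg (Int.emod_nonneg _ hm')]
    have := Int.emod_add_mul_ediv (-w) m
    refine ⟨-((-w) / m), ?_⟩
    linarith
  obtain ⟨g, hg⟩ : ∃ g, g = Nat.gcd m v := ⟨_, rfl⟩
  have em : m = g * (m / g) := by rw [hg, Nat.mul_div_cancel' (Nat.gcd_dvd_left _ _)]
  have evv : v = g * (v / g) := by rw [hg, Nat.mul_div_cancel' (Nat.gcd_dvd_right _ _)]
  -- congruences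
  have key : ∀ p r : ℕ, (m / g) ∣ p + r * (v / g) → (m : ℤ) ∣ p * g - r * w := by
    intro p r hpr
    have h1 : m ∣ g * (p + r * (v / g)) := by
      have h0 : g * (m / g) ∣ g * (p + r * (v / g)) := Nat.mul_dvd_mul_left g hpr
      rwa [← em] at h0
    have h2 : g * (p + r * (v / g)) = p * g + r * v := by
      calc g * (p + r * (v / g)) = p * g + r * (g * (v / g)) := by ring
        _ = p * g + r * v := by rw [← evv]
    rw [h2] at h1
    have h3 : (m : ℤ) ∣ (p : ℤ) * g + r * v := by exact_mod_cast h1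
    have h4 : (p : ℤ) * g - r * w = (p * g + r * v) - r * (v + w) := by ring
    rw [h4]
    exact dvd_sub h3 (dvd_mul_of_dvd_right hv _)
  refine ⟨X (m / g) (v / g), (k : ℚ)⁻¹ * ((g : ℚ)⁻¹ * ((m / g : ℕ) : ℚ)⁻¹),
    fun M => (M.1 * g - M.2.1 * w) / m, fun M => (M.2.2.1 * g - M.2.2.2 * w) / m, ?_⟩
  intro y₁ y₂
  obtain ⟨a₀, ha⟩ := hT.div m hm y₁
  choose b hb using fun a => hT.div k hk (y₂ - w • a)
  rw [(sum_SS hT hm hk w ha hb e).2]
  have hkq : (k : ℚ) ≠ 0 := Nat.cast_ne_zero.mpr hk.ne'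
  have h1 : ∀ j ∈ T m, ∑ t ∈ T k, e (a₀ + j) (b (a₀ + j) + t) =
      (k : ℚ)⁻¹ • e (a₀ + j) ((y₂ - w • a₀) + v • j) := by
    intro j hj
    rw [hT.mem m hm] at hj
    have h2 := h.d2 k hk (a₀ + j) (b (a₀ + j))
    have h3 : y₂ - w • (a₀ + j) = (y₂ - w • a₀) + v • j := by
      obtain ⟨c, hc⟩ := hv
      have h4 : v • j + w • j = 0 := by
        rw [← natCast_zsmul, ← add_smul, hc, mul_comm, mul_smul, natCast_zsmul, hj, smul_zero]
      rw [smul_add, ← sub_sub, sub_eq_add_neg (y₂ - w • a₀) (w • j), eq_neg_of_add_eq_zero_left h4]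
    rw [hb, h3] at h2
    rw [← h2, smul_smul, inv_mul_cancel₀ hkq, one_smul]
  rw [Finset.sum_congr rfl h1, ← smul_sum, coset_gen hT h hm v a₀ (y₂ - w • a₀), ← hg, smul_smul]
  congr 1
  refine Finset.sum_congr rfl fun M hM => ?_
  obtain ⟨p, r, q, s⟩ := M
  rw [mem_X] at hM
  have h5 : ∀ p r : ℕ, (m / g) ∣ p + r * (v / g) → p • g • a₀ + r • (y₂ - w • a₀) =
      (((p : ℤ) * g - r * w) / m) • y₁ + r • y₂ := by
    intro p r hpr
    obtain ⟨c, hc⟩ := key p r hpr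
    have hm' : (m : ℤ) ≠ 0 := Int.natCast_ne_zero.mpr hm.ne'
    rw [hc, Int.mul_ediv_cancel_left _ hm', ← ha]
    have h6 : (p * g : ℤ) • a₀ = (m * c + r * w : ℤ) • a₀ := by
      congr 1
      linarith
    have h7 : p • g • a₀ = (p * g : ℤ) • a₀ := by
      rw [mul_smul, natCast_zsmul, natCast_zsmul]
    rw [h7, h6]
    simp only [← natCast_zsmul]
    module
  unfold ev
  simp only
  rw [h5 p r hM.2.2.2.1, h5 q s hM.2.2.2.2]

end Pool.Agent.K4AP
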