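import Pool.Agent.Lib_helper88.K4P.All

set_option autoImplicit false

/-!
All pairs, cyclic groups: one line and the bound by the genus.
-/

namespace Pool.Agent.MK4

open Finset Pool.Agent.K4AP Pool.Agent.K4Rank

variable {A B : Type*} [AddCommGroup A] [AddCommGroup B] {ξ : A → A → B} {N : ℕ} {P : A}

lemma mul_val_smul [NeZero N] {u u' : (ZMod N)ˣ} (h : u' * u = 1) {z : A} (hz : N • z = 0) :
    (u' : ZMod N).val • ((u : ZMod N).val • z) = z := by
  have h1 : ((u' : ZMod N) * (u : ZMod N)) = 1 := by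
    rw [← Units.val_mul, h, Units.val_one]
  have h2 : (N : ℤ) ∣ ((u' : ZMod N).val : ℤ) * ((u : ZMod N).val : ℤ) - 1 := by
    rw [← ZMod.intCast_zmod_eq_zero_iff_dvd]
    push_cast
    simp only [ZMod.natCast_val, ZMod.cast_id', id]
    rw [h1, sub_self]
  obtain ⟨k, hk⟩ := h2
  rw [smul_smul, ← natCast_zsmul]
  push_cast
  rw [show ((u' : ZMod N).val : ℤ) * ((u : ZMod N).val : ℤ) = 1 + k * N by linarith, add_smul,
    mul_smul, natCast_zsmul, hz, smul_zero, add_zero, one_smul]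

lemma unit_inj [NeZero N] (hP : addOrderOf P = N) {u v : (ZMod N)ˣ}
    (h : (u : ZMod N).val • P = (v : ZMod N).val • P) : u = v := by
  have h1 : (u : ZMod N).val ≡ (v : ZMod N).val [MOD N] := by
    have := (nsmul_eq_nsmul_iff_modEq (x := P)).mp h
    rwa [hP] at this
  exact Units.ext (ZMod.val_injective N
    (Nat.ModEq.eq_of_lt_of_lt h1 (ZMod.val_lt _) (ZMod.val_lt _)))

/-- `mulBy` as a range -/
lemma mulBy_range (U : Subgroup (ZMod N)ˣ) (P : A) : mulBy U P = Set.range (fun u : U =>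
    ((u : (ZMod N)ˣ) : ZMod N).val • (AddSubgroup.zmultiples P).subtype) := by
  ext s
  constructor
  · rintro ⟨u, hu, rfl⟩
    exact ⟨⟨u, hu⟩, rfl⟩
  · rintro ⟨u, rfl⟩
    exact ⟨u.1, u.2, rfl⟩

lemma finsum_mulBy [NeZero N] (hP : addOrderOf P = N) (U : Subgroup (ZMod N)ˣ)
    (F : (AddSubgroup.zmultiples P →+ A) → B) :
    ∑ᶠ s ∈ mulBy U P, F s = ∑ᶠ u : U, F (((u : (ZMod N)ˣ) : ZMod N).val •
      (AddSubgroup.zmultiples P).subtype) := by
  rw [mulBy_range]
  refine finsum_mem_range ?_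
  intro u v huv
  have h := congrArg (fun s : AddSubgroup.zmultiples P →+ A =>
    s ⟨P, AddSubgroup.mem_zmultiples P⟩) huv
  exact Subtype.ext (unit_inj hP h)

lemma kill_zmul (hP : N • P = 0) (c : AddSubgroup.zmultiples P) : N • (c : A) = 0 := by
  obtain ⟨k, hk⟩ := AddSubgroup.mem_zmultiples_iff.mp c.2
  rw [← hk, smul_comm, hP, smul_zero]

lemma mulBy_inj [NeZero N] (hP : N • P = 0) (U : Subgroup (ZMod N)ˣ) :
    ∀ s ∈ mulBy U P, Function.Injective s := by
  rintro _ ⟨u, hu, rfl⟩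
  rw [injective_iff_map_eq_zero]
  intro c hc
  have h0 : (u : ZMod N).val • (c : A) = 0 := hc
  have h1 := mul_val_smul (u := u) (u' := u⁻¹) (inv_mul_cancel u) (kill_zmul hP c)
  rw [h0, smul_zero] at h1
  exact Subtype.ext h1.symm

lemma val_mul_smul' [NeZero N] (u v : (ZMod N)ˣ) {z : A} (hz : N • z = 0) :
    ((u * v : (ZMod N)ˣ) : ZMod N).val • z = (u : ZMod N).val • ((v : ZMod N).val • z) := by
  have h2 : (N : ℤ) ∣ (((u * v : (ZMod N)ˣ) : ZMod N).val : ℤ) -
      ((u : ZMod N).val : ℤ) * ((v : ZMod N).val : ℤ) := by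
    rw [← ZMod.intCast_zmod_eq_zero_iff_dvd]
    push_cast
    simp
  obtain ⟨k, hk⟩ := h2
  generalize ((u * v : (ZMod N)ˣ) : ZMod N).val = m at hk ⊢
  generalize (u : ZMod N).val = m1 at hk ⊢
  generalize (v : ZMod N).val = m2 at hk ⊢
  have h3 : (m : ℤ) = ((m1 * m2 : ℕ) : ℤ) + k * N := by push_cast; linarith
  rw [smul_smul, ← natCast_zsmul, h3, add_smul, mul_smul k, natCast_zsmul z N, hz, smul_zero,
    add_zero, natCast_zsmul]

/-- the sum over the classes and the sum over the automorphisms -/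
lemma sum_classes [NeZero N] (hP : N • P = 0) (F : (AddSubgroup.zmultiples P →+ A) → B) :
    ∃ κ : ℕ, 0 < κ ∧ ∑ u : (ZMod N)ˣ, F ((u : ZMod N).val • (AddSubgroup.zmultiples P).subtype) =
      κ • ∑ᶠ s ∈ mulBy (⊤ : Subgroup (ZMod N)ˣ) P, F s := by
  classical
  obtain ⟨ρ, hρ⟩ : ∃ ρ : (ZMod N)ˣ → (AddSubgroup.zmultiples P →+ A), ρ = fun u : (ZMod N)ˣ =>
    (u : ZMod N).val • (AddSubgroup.zmultiples P).subtype := ⟨_, rfl⟩
  have hap : ∀ u c, ρ u c = (u : ZMod N).val • (c : A) := by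
    intro u c; rw [hρ]; rfl
  have hmul : ∀ u v c, ρ (u * v) c = (u : ZMod N).val • ρ v c := by
    intro u v c
    rw [hap, hap, val_mul_smul' u v (kill_zmul hP c)]
  refine ⟨((univ : Finset (ZMod N)ˣ).filter fun w => ρ w = ρ 1).card, ?_, ?_⟩
  · exact Finset.card_pos.mpr ⟨1, by simp⟩
  · have h1 : ∑ u : (ZMod N)ˣ, F ((u : ZMod N).val • (AddSubgroup.zmultiples P).subtype) =
        ∑ u : (ZMod N)ˣ, F (ρ u) := by rw [hρ]
    rw [h1, Finset.sum_comp F ρ]
    have hset : mulBy (⊤ : Subgroup (ZMod N)ˣ) P = (((univ : Finset (ZMod N)ˣ).image ρ :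
        Finset (AddSubgroup.zmultiples P →+ A)) : Set (AddSubgroup.zmultiples P →+ A)) := by
      ext s
      rw [coe_image, Set.mem_image]
      constructor
      · rintro ⟨u, -, rfl⟩
        exact ⟨u, by simp, by rw [hρ]⟩
      · rintro ⟨u, -, rfl⟩
        exact ⟨u, Subgroup.mem_top _, by rw [hρ]⟩
    rw [hset, finsum_mem_coe_finset, smul_sum]
    refine Finset.sum_congr rfl fun b hb => ?_
    obtain ⟨u₀, -, rfl⟩ := Finset.mem_image.mp hb
    congr 1
    symm
    refine Finset.card_bij' (fun w _ => u₀ * w) (fun u _ => u₀⁻¹ * u) ?_ ?_ ?_ ?_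
    · intro w hw
      rw [mem_filter] at hw ⊢
      refine ⟨mem_univ _, AddMonoidHom.ext fun c => ?_⟩
      have h2 : ρ (u₀ * 1) c = ρ u₀ c := by rw [mul_one]
      rw [hmul, hw.2, ← hmul, h2]
    · intro u hu
      rw [mem_filter] at hu ⊢
      refine ⟨mem_univ _, AddMonoidHom.ext fun c => ?_⟩
      have h2 : ρ (u₀⁻¹ * u₀) c = ρ 1 c := by rw [inv_mul_cancel]
      rw [hmul, hu.2, ← hmul, h2]
    · intro w _; simp
    · intro u _; simp

variable [Module ℚ B]

/-- the traces in the cyclic case -/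
theorem tr_cyc [NeZero N] (hP : addOrderOf P = N) (h : AllPairs ξ) (U : Subgroup (ZMod N)ˣ)
    (a b : A) : tr ξ (mulBy U P) a b ∈ Submodule.span ℚ {z : B | ∃ x y : ℤ, z =
      ∑ᶠ u : U, ξ (((((u : (ZMod N)ˣ) : ZMod N).val : ℤ) * x) • P)
        (((((u : (ZMod N)ˣ) : ZMod N).val : ℤ) * y) • P)} := by
  have hC : Finite (AddSubgroup.zmultiples P) := finite_zmultiples.mpr
    (addOrderOf_pos_iff.mp (by rw [hP]; exact Nat.pos_of_ne_zero (NeZero.ne N)))
  have hG : (mulBy U P).Finite := by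
    rw [mulBy_range]; exact Set.finite_range _
  have h1 := h (AddSubgroup.zmultiples P) (mulBy U P) hC hG
    (mulBy_inj (by rw [← hP]; exact addOrderOf_nsmul_eq_zero P) U) a b
  refine Submodule.span_mono ?_ h1
  rintro _ ⟨c, d, rfl⟩
  obtain ⟨x, hx⟩ := AddSubgroup.mem_zmultiples_iff.mp c.2
  obtain ⟨y, hy⟩ := AddSubgroup.mem_zmultiples_iff.mp d.2
  refine ⟨x, y, ?_⟩
  rw [finsum_mulBy hP]
  refine finsum_congr fun u => ?_
  show ξ (((u : (ZMod N)ˣ) : ZMod N).val • (c : A)) (((u : (ZMod N)ˣ) : ZMod N).val • (d : A)) = _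
  rw [← hx, ← hy, mul_smul, mul_smul, natCast_zsmul, natCast_zsmul]

theorem onePairs_of (hM : Manin ξ) (h : AllPairs ξ) :
    ∀ N ∈ [11, 14, 15, 17, 19, 20, 21, 24], OnePairs ξ N := by
  classical
  intro N hN P hNP
  have hN0 : 0 < N := by
    fin_cases hN <;> norm_num
  have : NeZero N := ⟨hN0.ne'⟩
  obtain ⟨h0, hh'⟩ := level0_all hM N hN P hNP
  have hh : ∀ a b : ℤ, ∃ q : ℚ, traceU ξ N P a b = q • h0 := hh'
  refine ⟨h0, fun a b => ?_⟩
  have hC : Finite (AddSubgroup.zmultiples P) := finite_zmultiples.mpr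
    (isOfFinAddOrder_iff_nsmul_eq_zero.mpr ⟨N, hN0, hNP⟩)
  have hG : (mulBy (⊤ : Subgroup (ZMod N)ˣ) P).Finite := by
    rw [mulBy_range]; exact Set.finite_range _
  have h1 := h (AddSubgroup.zmultiples P) (mulBy ⊤ P) hC hG (mulBy_inj hNP ⊤) a b
  have h2 : Submodule.span ℚ {z : B | ∃ c d : AddSubgroup.zmultiples P, z =
      ∑ᶠ s ∈ mulBy (⊤ : Subgroup (ZMod N)ˣ) P, ξ (s c) (s d)} ≤ Submodule.span ℚ {h0} := by
    rw [Submodule.span_le]
    rintro _ ⟨c, d, rfl⟩
    obtain ⟨x, hx⟩ := AddSubgroup.mem_zmultiples_iff.mp c.2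
    obtain ⟨y, hy⟩ := AddSubgroup.mem_zmultiples_iff.mp d.2
    obtain ⟨q, hq⟩ := hh x y
    obtain ⟨κ, hκ, hs⟩ := sum_classes hNP (fun s => ξ (s c) (s d))
    have e : traceU ξ N P x y = ∑ u : (ZMod N)ˣ,
        (fun s : AddSubgroup.zmultiples P →+ A => ξ (s c) (s d))
          ((u : ZMod N).val • (AddSubgroup.zmultiples P).subtype) := by
      unfold traceU
      symm
      refine Finset.sum_bij (fun u _ => (u : ZMod N).val) ?_ ?_ ?_ ?_
      · intro u _
        rw [mem_filter, mem_range]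
        exact ⟨ZMod.val_lt _, ZMod.val_coe_unit_coprime _⟩
      · intro u _ v _ h
        exact Units.ext (ZMod.val_injective N h)
      · intro u hu
        rw [mem_filter, mem_range] at hu
        refine ⟨ZMod.unitOfCoprime u hu.2, mem_univ _, ?_⟩
        simp only [ZMod.coe_unitOfCoprime]
        exact ZMod.val_cast_of_lt hu.1
      · intro u _
        show ξ ((u : ZMod N).val • (c : A)) ((u : ZMod N).val • (d : A)) = _
        rw [← hx, ← hy, mul_smul, mul_smul, natCast_zsmul, natCast_zsmul]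
    have hκq : (κ : ℚ) ≠ 0 := Nat.cast_ne_zero.mpr hκ.ne'
    have e2 : ∑ᶠ s ∈ mulBy (⊤ : Subgroup (ZMod N)ˣ) P, ξ (s c) (s d) =
        ((κ : ℚ)⁻¹ * q) • h0 := by
      rw [mul_smul, ← hq, e, hs, ← Nat.cast_smul_eq_nsmul ℚ, smul_smul, inv_mul_cancel₀ hκq,
        one_smul]
    rw [e2]
    exact Submodule.smul_mem _ _ (Submodule.mem_span_singleton_self h0)
  obtain ⟨q, hq⟩ := Submodule.mem_span_singleton.mp (h2 h1)
  exact ⟨q, hq.symm⟩

theorem genusPairs_of (hM : Manin ξ) (h : AllPairs ξ) : GenusPairs ξ := by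
  classical
  intro p hp h5 U hU P hP
  have : Fact p.Prime := ⟨hp⟩
  have hpP : p • P = 0 := by rw [← hP]; exact addOrderOf_nsmul_eq_zero P
  obtain ⟨f, hf⟩ := rk_hom p P hpP
  have key := eU_rank hM (by omega) f U hU
  refine ⟨SP (eU ξ f U), inferInstance, ?_, ?_⟩
  · rw [card_four (by omega) U, card_three (by omega) U]
    exact key
  · intro a b
    have h1 := tr_cyc hP h U a b
    refine Submodule.span_mono ?_ h1
    rintro _ ⟨x, y, rfl⟩
    refine ⟨((x : ZMod p), (y : ZMod p)), ?_⟩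
    simp only
    unfold eU
    refine finsum_congr fun u => ?_
    rw [← rk_vl hf, ← rk_vl hf]
    rfl

end Pool.Agent.MK4
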