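import Pool.Agent.Lib_helper88.K4P.Coset

set_option autoImplicit false

/-!
All pairs: the sum of `ξ` over the pairs with given linear relations over a finite group.
-/

namespace Pool.Agent.K4AP

open Finset Pool.Agent.K4TL

lemma cyc (H : AddSubgroup ℤ) {n : ℤ} (hn : n ≠ 0) (hH : n ∈ H) :
    ∃ m : ℕ, 0 < m ∧ (m : ℤ) ∈ H ∧ ∀ x ∈ H, ∃ s : ℤ, x = s * m := by
  obtain ⟨a, ha⟩ := Int.subgroup_cyclic H
  have h1 : ∀ x, x ∈ H ↔ ∃ s : ℤ, s * a = x := by
    intro x
    rw [ha, AddSubgroup.mem_closure_singleton]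
    simp only [smul_eq_mul]
  have ha0 : a ≠ 0 := by
    rintro rfl
    obtain ⟨s, hs⟩ := (h1 n).mp hH
    exact hn (by rw [← hs, mul_zero])
  refine ⟨a.natAbs, Int.natAbs_pos.mpr ha0, ?_, ?_⟩
  · rcases Int.natAbs_eq a with h | h
    · rw [← h]; exact (h1 a).mpr ⟨1, one_mul a⟩
    · have : ((a.natAbs : ℕ) : ℤ) = -a := by omega
      rw [this]
      exact (h1 (-a)).mpr ⟨-1, by ring⟩
  · intro x hx
    obtain ⟨s, hs⟩ := (h1 x).mp hx
    rcases Int.natAbs_eq a with h | h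
    · exact ⟨s, by rw [← h, hs]⟩
    · refine ⟨-s, ?_⟩
      have : ((a.natAbs : ℕ) : ℤ) = -a := by omega
      rw [this, ← hs]; ring

/-- Hermite normal form -/
lemma hnf {D : Type*} [AddCommGroup D] (τ : AddSubgroup (ℤ × ℤ × D)) (hτ : τ.index ≠ 0) :
    ∃ (m k : ℕ) (w : ℤ) (d₁ d₂ : D), 0 < m ∧ 0 < k ∧ ((m : ℤ), (0 : ℤ), d₁) ∈ τ ∧
      (w, (k : ℤ), d₂) ∈ τ ∧ ∀ x y d, (x, y, d) ∈ τ → ∃ s t : ℤ, x = s * m + t * w ∧
        y = t * k ∧ ((0 : ℤ), (0 : ℤ), d - s • d₁ - t • d₂) ∈ τ := by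
  let H1 : AddSubgroup ℤ :=
    { carrier := {x | ∃ d, (x, (0 : ℤ), d) ∈ τ}
      zero_mem' := ⟨0, τ.zero_mem⟩
      add_mem' := by
        rintro a b ⟨d, hd⟩ ⟨d', hd'⟩
        refine ⟨d + d', ?_⟩
        simpa using τ.add_mem hd hd'
      neg_mem' := by
        rintro a ⟨d, hd⟩
        refine ⟨-d, ?_⟩
        simpa using τ.neg_mem hd }
  let H2 : AddSubgroup ℤ :=
    { carrier := {y | ∃ x d, (x, y, d) ∈ τ}
      zero_mem' := ⟨0, 0, τ.zero_mem⟩
      add_mem' := by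
        rintro a b ⟨x, d, hd⟩ ⟨x', d', hd'⟩
        exact ⟨x + x', d + d', τ.add_mem hd hd'⟩
      neg_mem' := by
        rintro a ⟨x, d, hd⟩
        exact ⟨-x, -d, τ.neg_mem hd⟩ }
  have n1 : ((τ.index : ℤ)) ∈ H1 := by
    refine ⟨0, ?_⟩
    have := AddSubgroup.nsmul_index_mem τ ((1 : ℤ), (0 : ℤ), (0 : D))
    simpa using this
  have n2 : ((τ.index : ℤ)) ∈ H2 := by
    refine ⟨0, 0, ?_⟩
    have := AddSubgroup.nsmul_index_mem τ ((0 : ℤ), (1 : ℤ), (0 : D))
    simpa using this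
  obtain ⟨m, hm, ⟨d₁, hd₁⟩, hm'⟩ := cyc H1 (Int.natCast_ne_zero.mpr hτ) n1
  obtain ⟨k, hk, ⟨w, d₂, hd₂⟩, hk'⟩ := cyc H2 (Int.natCast_ne_zero.mpr hτ) n2
  refine ⟨m, k, w, d₁, d₂, hm, hk, hd₁, hd₂, ?_⟩
  intro x y d h
  obtain ⟨t, ht⟩ := hk' y ⟨x, d, h⟩
  have h1 : (x - t * w, (0 : ℤ), d - t • d₂) ∈ τ := by
    have := τ.sub_mem h (τ.zsmul_mem hd₂ t)
    rw [ht] at this
    simpa using this
  obtain ⟨s, hs⟩ := hm' (x - t * w) ⟨_, h1⟩
  refine ⟨s, t, by linarith, ht, ?_⟩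
  have := τ.sub_mem h1 (τ.zsmul_mem hd₁ s)
  have e : x - t * w - s * m = 0 := by linarith
  have e2 : d - t • d₂ - s • d₁ = d - s • d₁ - t • d₂ := by abel
  simpa [e, e2] using this

lemma fin_ge {G : Type*} [AddCommGroup G] (τ : AddSubgroup G) (h : τ.index ≠ 0) :
    {τ' : AddSubgroup G | τ ≤ τ'}.Finite := by
  have : τ.FiniteIndex := ⟨h⟩
  have : Finite (G ⧸ τ) := inferInstance
  refine Set.Finite.of_injOn (f := fun τ' => AddSubgroup.map (QuotientAddGroup.mk' τ) τ')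
    (t := Set.univ) (fun _ _ => Set.mem_univ _) ?_ Set.finite_univ
  intro a ha b hb hab
  have h1 := congrArg (AddSubgroup.comap (QuotientAddGroup.mk' τ)) hab
  simp only at h1
  rw [QuotientAddGroup.comap_map_mk', QuotientAddGroup.comap_map_mk'] at h1
  have ha' : τ ≤ a := ha
  have hb' : τ ≤ b := hb
  rwa [sup_eq_right.mpr ha', sup_eq_right.mpr hb'] at h1

variable {A B D I : Type*} [AddCommGroup A] [AddCommGroup B] [Module ℚ B] [AddCommGroup D]

/-- the linear relations of a pair with the image of `f` -/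
def ty (f : D →+ A) (v : A × A) : AddSubgroup (ℤ × ℤ × D) where
  carrier := {t | t.1 • v.1 + t.2.1 • v.2 = f t.2.2}
  zero_mem' := by simp
  add_mem' := by
    intro a b ha hb
    simp only [Set.mem_ofPred_eq, Prod.fst_add, Prod.snd_add, map_add, add_smul] at *
    rw [← ha, ← hb]; abel
  neg_mem' := by
    intro a ha
    simp only [Set.mem_ofPred_eq, Prod.fst_neg, Prod.snd_neg, map_neg, neg_smul] at *
    rw [← ha]; abel

lemma mem_ty {f : D →+ A} {v : A × A} {x y : ℤ} {d : D} :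
    (x, y, d) ∈ ty f v ↔ x • v.1 + y • v.2 = f d := Iff.rfl

/-- the span of the families `ξ(f_i(d), f_i(d'))` -/
def RR (ξ : A → A → B) (f : I → D →+ A) : Submodule ℚ (I → B) :=
  Submodule.span ℚ {z | ∃ d d' : D, z = fun i => ξ (f i d) (f i d')}

/-- the sum over the pairs whose relations contain `τ` -/
noncomputable def Ge (ξ : A → A → B) (f : I → D →+ A) (τ : AddSubgroup (ℤ × ℤ × D)) : I → B :=
  fun i => ∑ᶠ v ∈ {v : A × A | τ ≤ ty (f i) v}, ξ v.1 v.2

/-- the sum over the pairs with relations `τ` -/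
noncomputable def Eq' (ξ : A → A → B) (f : I → D →+ A) (τ : AddSubgroup (ℤ × ℤ × D)) : I → B :=
  fun i => ∑ᶠ v ∈ {v : A × A | ty (f i) v = τ}, ξ v.1 v.2

variable {T : ℕ → Finset A} {ξ : A → A → B} {f : I → D →+ A} {K : AddSubgroup D}

lemma ge_mem (hT : IsTors T) (h : Dist T ξ) (hf : ∀ i d, f i d = 0 ↔ d ∈ K)
    (τ : AddSubgroup (ℤ × ℤ × D)) (hτ : τ.index ≠ 0) :
    (∀ i, {v : A × A | τ ≤ ty (f i) v}.Finite) ∧ Ge ξ f τ ∈ RR ξ f := by
  classical
  obtain ⟨m, k, w, d₁, d₂, hm, hk, h1, h2, h3⟩ := hnf τ hτ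
  by_cases hK : ∀ d, ((0 : ℤ), (0 : ℤ), d) ∈ τ → d ∈ K
  · have hset : ∀ i, {v : A × A | τ ≤ ty (f i) v} = SS m k w (f i d₁) (f i d₂) := by
      intro i
      ext v
      simp only [SS, Set.mem_ofPred_eq]
      constructor
      · intro hv
        have e1 := mem_ty.mp (hv h1)
        have e2 := mem_ty.mp (hv h2)
        rw [zero_smul, add_zero, natCast_zsmul] at e1
        rw [natCast_zsmul] at e2
        exact ⟨e1, e2⟩
      · rintro ⟨e1, e2⟩ ⟨x, y, d⟩ ht
        obtain ⟨s, t, hx, hy, hd⟩ := h3 x y d ht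
        have h4 := (hf i _).mpr (hK _ hd)
        rw [map_sub, map_sub, map_zsmul, map_zsmul] at h4
        rw [mem_ty]
        have h5 : f i d = s • f i d₁ + t • f i d₂ := by
          rw [sub_sub, sub_eq_zero] at h4
          exact h4
        rw [h5, ← e1, ← e2, hx, hy]
        simp only [← natCast_zsmul]
        module
    constructor
    · intro i
      rw [hset]
      obtain ⟨a₀, ha⟩ := hT.div m hm (f i d₁)
      choose b hb using fun a => hT.div k hk (f i d₂ - w • a)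
      exact (sum_SS hT hm hk w ha hb ξ).1
    · obtain ⟨J, κ, α, β, hs⟩ := sum_xi hT h hm hk w
      have e : Ge ξ f τ = κ • ∑ M ∈ J, fun i => ξ (f i (α M • d₁ + M.2.1 • d₂))
          (f i (β M • d₁ + M.2.2.2 • d₂)) := by
        funext i
        unfold Ge
        rw [hset, hs, Pi.smul_apply, Finset.sum_apply]
        congr 1
        refine Finset.sum_congr rfl fun M _ => ?_
        simp only [map_add, map_zsmul, map_nsmul]
      rw [e]
      refine Submodule.smul_mem _ _ (Submodule.sum_mem _ fun M _ => Submodule.subset_span ?_)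
      exact ⟨_, _, rfl⟩
  · push Not at hK
    obtain ⟨d, hd, hdK⟩ := hK
    have hset : ∀ i, {v : A × A | τ ≤ ty (f i) v} = ∅ := by
      intro i
      rw [Set.eq_empty_iff_forall_notMem]
      intro v hv
      have e := mem_ty.mp (hv hd)
      rw [zero_smul, zero_smul, add_zero] at e
      exact hdK ((hf i d).mp e.symm)
    constructor
    · intro i
      rw [hset]; exact Set.finite_empty
    · have e : Ge ξ f τ = 0 := by
        funext i
        unfold Ge
        rw [hset, finsum_mem_empty]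
        rfl
      rw [e]
      exact Submodule.zero_mem _

lemma ge_sum (hT : IsTors T) (h : Dist T ξ) (hf : ∀ i d, f i d = 0 ↔ d ∈ K)
    (τ : AddSubgroup (ℤ × ℤ × D)) (hτ : τ.index ≠ 0) :
    Ge ξ f τ = ∑ τ' ∈ (fin_ge τ hτ).toFinset, Eq' ξ f τ' := by
  classical
  funext i
  rw [Finset.sum_apply]
  have hfin := (ge_mem hT h hf τ hτ).1 i
  unfold Ge Eq'
  rw [← hfin.coe_toFinset, finsum_mem_coe_finset,
    ← Finset.sum_fiberwise_of_maps_to (s := hfin.toFinset) (t := (fin_ge τ hτ).toFinset)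
      (g := fun v => ty (f i) v) ?_]
  · refine Finset.sum_congr rfl fun τ' hτ' => ?_
    rw [Set.Finite.mem_toFinset] at hτ'
    have hτ'' : τ ≤ τ' := hτ'
    rw [← finsum_mem_coe_finset]
    congr 1
    funext v
    have : v ∈ (((hfin.toFinset).filter fun v => ty (f i) v = τ' : Finset (A × A)) :
        Set (A × A)) ↔ v ∈ {v : A × A | ty (f i) v = τ'} := by
      simp only [coe_filter, Set.Finite.mem_toFinset, Set.mem_ofPred_eq]
      constructor
      · exact fun hv => hv.2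
      · exact fun hv => ⟨by rw [hv]; exact hτ'', hv⟩
    simp only [this]
  · intro v hv
    rw [Set.Finite.mem_toFinset] at hv ⊢
    exact hv

/-- **All pairs.** -/
theorem eq_mem (hT : IsTors T) (h : Dist T ξ) (hf : ∀ i d, f i d = 0 ↔ d ∈ K) :
    ∀ n : ℕ, n ≠ 0 → ∀ τ : AddSubgroup (ℤ × ℤ × D), τ.index = n → Eq' ξ f τ ∈ RR ξ f := by
  classical
  intro n
  induction n using Nat.strong_induction_on with
  | _ n ih =>
    intro hn τ hτ
    have hτ0 : τ.index ≠ 0 := by rw [hτ]; exact hn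
    have : τ.FiniteIndex := ⟨hτ0⟩
    have h1 := ge_sum hT h hf τ hτ0
    have hmem : τ ∈ (fin_ge τ hτ0).toFinset := by
      rw [Set.Finite.mem_toFinset]
      exact le_refl τ
    rw [← Finset.add_sum_erase _ _ hmem] at h1
    have h2 : Eq' ξ f τ = Ge ξ f τ - ∑ τ' ∈ (fin_ge τ hτ0).toFinset.erase τ, Eq' ξ f τ' := by
      rw [h1]; abel
    rw [h2]
    refine Submodule.sub_mem _ (ge_mem hT h hf τ hτ0).2 (Submodule.sum_mem _ fun τ' hτ' => ?_)
    rw [mem_erase, Set.Finite.mem_toFinset] at hτ'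
    have hle : τ ≤ τ' := hτ'.2
    have hlt : τ < τ' := lt_of_le_of_ne hle (Ne.symm hτ'.1)
    have h3 := AddSubgroup.index_strictAnti hlt
    have : τ'.FiniteIndex := AddSubgroup.finiteIndex_of_le hle
    exact ih τ'.index (by rw [← hτ]; exact h3) (AddSubgroup.FiniteIndex.index_ne_zero) τ' rfl

end Pool.Agent.K4AP
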